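import Pool.Agent.Run7.h179.CP.C

set_option autoImplicit false

/-! The characterisation with equality of the classes. -/

namespace Pool.Agent.Run7.h179.CP

open Subgroup Pool.Agent.Run7.h179.AC
open scoped commutatorElement

variable {G : Type*} [Group G]

theorem central_of_conj (hcl : commutator G ≤ center G) {α : MulAut G} (hα : ∀ g, IsConj g (α g))
    (g : G) : g⁻¹ * α g ∈ center G := by
  have hcc : ∀ k g : G, ⁅k, g⁆ ∈ center G := fun k g => hcl (comm_mem k g)
  obtain ⟨k, hk⟩ := conj_comm (hα g)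
  have h2 : g⁻¹ * α g = ⁅k, g⁆ := by
    have h3 : α g = ⁅k, g⁆ * g := by rw [hk]; group
    rw [h3, ← mul_assoc, mem_center_iff.1 (hcc k g) g⁻¹, mul_assoc, inv_mul_cancel, mul_one]
  rw [h2]
  exact hcc k g

theorem main' [Finite G] {p : ℕ} [hp : Fact p.Prime] (hG : IsPGroup p G)
    (hne : commutator G ≠ ⊥) (hcl : commutator G ≤ center G) :
    CC G ↔ (center G = commutator G ∧ ∀ x, x ∉ frattini G → ∀ z ∈ center G,
      (IsConj x (x * z) ↔ Hts p G x z)) := by
  have hcc : ∀ k g : G, ⁅k, g⁆ ∈ center G := fun k g => hcl (comm_mem k g)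
  have hzp : ∀ (k g : G) (m : ℕ), ⁅k, g ^ m⁆ = ⁅k, g⁆ ^ m := by
    intro k g m
    exact congrArg Subtype.val (map_pow (chi k (hcc k)) g m)
  have hmc : ∀ (k g c : G), c ∈ center G → ⁅k, g * c⁆ = ⁅k, g⁆ := by
    intro k g c hc
    rw [comm_mul_right, commutatorElement_eq_one_iff_mul_comm.2 (mem_center_iff.1 hc k), mul_one,
      mul_inv_cancel, mul_one]
  have hconj : ∀ x z : G, z ∈ center G → (IsConj x (x * z) ↔ ∃ k : G, ⁅k, x⁆ = z) := by
    intro x z hz
    rw [mem_center_iff.1 hz x]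
    exact conj_iff
  rw [main hG hne hcl]
  refine and_congr_right fun _ => ?_
  constructor
  · intro h x hx z hz
    rw [hconj x z hz]
    constructor
    · rintro ⟨k, rfl⟩ i l ⟨y, c, hc, hy⟩
      refine ⟨⁅k, y⁆, hcc k y, ?_⟩
      rw [← hzp, hy, hmc _ _ _ hc, hzp]
    · intro h2
      exact h x hx z hz h2
  · intro h x hx z hz h2
    exact (hconj x z hz).1 ((h x hx z hz).2 h2)

end Pool.Agent.Run7.h179.CP
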