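import Pool.Agent.Run7.h179.AC.M

set_option autoImplicit false

/-! A basis of the abelianisation of a finite `p`-group. -/

namespace Pool.Agent.Run7.h179.CP

open Subgroup Pool.Agent.Run7.h179.AC
open scoped commutatorElement IsMulCommutative

/-- elements of `G` representing a basis of `G/γ₂` -/
structure Basis (p : ℕ) (G : Type*) [Group G] where
  ι : Type
  ft : Fintype ι
  a : ι → ℕ
  x : ι → G
  π : ∀ i, G →* Multiplicative (ZMod (p ^ a i))
  pos : ∀ i, a i ≠ 0
  same : ∀ i, π i (x i) = Multiplicative.ofAdd 1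
  other : ∀ i j, i ≠ j → π i (x j) = 1
  form : ∀ g : G, ∃ m : ι → ℤ, (Abelianization.of g : Abelianization G) =
    ∏ i, (Abelianization.of (x i) : Abelianization G) ^ m i
  gen : closure (Set.range x) = ⊤
  ord : ∀ i, x i ^ p ^ a i ∈ commutator G
  out : ∀ (h : G) (m : ι → ℤ) (i : ι), (Abelianization.of h : Abelianization G) =
    ∏ j, (Abelianization.of (x j) : Abelianization G) ^ m j → ¬ (p : ℤ) ∣ m i → h ∉ frattini G

theorem exists_basis {G : Type*} [Group G] [Finite G] {p : ℕ} [hp : Fact p.Prime]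
    (hG : IsPGroup p G) : Nonempty (Basis p G) := by
  classical
  have hnil : Group.IsNilpotent G := hG.isNilpotent
  obtain ⟨ι, hι, n, hn1, ⟨φ⟩⟩ := CommGroup.equiv_prod_multiplicative_zmod_of_finite (Abelianization G)
  have hpw : ∀ i, ∃ k, n i = p ^ k := by
    intro i
    let ρ : G →* Multiplicative (ZMod (n i)) :=
      (Pi.evalMonoidHom (fun i => Multiplicative (ZMod (n i))) i).comp
      (φ.toMonoidHom.comp Abelianization.of)
    have hρ : Function.Surjective ρ := by
      intro q
      obtain ⟨g, hg⟩ := QuotientGroup.mk'_surjective (commutator G) (φ.symm (Pi.mulSingle i q))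
      refine ⟨g, ?_⟩
      show φ (QuotientGroup.mk' (commutator G) g) i = q
      rw [hg, MulEquiv.apply_symm_apply, Pi.mulSingle_eq_same]
    have h1 := hG.of_surjective ρ hρ
    have hne : NeZero (n i) := ⟨by have := hn1 i; omega⟩
    obtain ⟨k, hk⟩ := (IsPGroup.iff_card).1 h1
    refine ⟨k, ?_⟩
    rw [← hk, Nat.card_eq_of_bijective _ Multiplicative.toAdd.bijective, Nat.card_zmod]
  choose a ha using hpw
  obtain rfl : n = fun i => p ^ a i := funext ha
  obtain ⟨b, hb⟩ : ∃ b : ι → Abelianization G, b = fun i =>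
    φ.symm (Pi.mulSingle i (Multiplicative.ofAdd 1)) := ⟨_, rfl⟩
  choose x hx using fun i => QuotientGroup.mk'_surjective (commutator G) (b i)
  replace hx : ∀ i, Abelianization.of (x i) = b i := hx
  let π : ∀ i, G →* Multiplicative (ZMod (p ^ a i)) := fun i =>
    (Pi.evalMonoidHom (fun i => Multiplicative (ZMod (p ^ a i))) i).comp
      (φ.toMonoidHom.comp Abelianization.of)
  have hπ : ∀ i j, π i (x j) = (Pi.mulSingle j (Multiplicative.ofAdd (1 : ZMod (p ^ a j))) :
      ∀ i, Multiplicative (ZMod (p ^ a i))) i := by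
    intro i j
    show φ (Abelianization.of (x j)) i = _
    rw [hx j, hb, MulEquiv.apply_symm_apply]
  have hπ1 : ∀ i, π i (x i) = Multiplicative.ofAdd 1 := by
    intro i; rw [hπ, Pi.mulSingle_eq_same]
  have hπ2 : ∀ i j, i ≠ j → π i (x j) = 1 := by
    intro i j hij; rw [hπ, Pi.mulSingle_eq_of_ne hij]
  have hform : ∀ g : G, ∃ m : ι → ℤ, Abelianization.of g = ∏ i, b i ^ m i := by
    intro g
    refine ⟨fun i => ((Multiplicative.toAdd (φ (Abelianization.of g) i)).cast : ℤ), ?_⟩
    apply φ.injective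
    rw [map_prod]
    conv_lhs => rw [← Finset.univ_prod_mulSingle (φ (Abelianization.of g))]
    refine Finset.prod_congr rfl fun i _ => ?_
    rw [map_zpow, hb]
    simp only [MulEquiv.apply_symm_apply]
    rw [← Pi.mulSingle_zpow, ← ofAdd_zsmul]
    congr 1
    rw [zsmul_one, ZMod.intCast_zmod_cast, ofAdd_toAdd]
  have hgen : closure (Set.range x) = ⊤ := by
    apply sup_comm_top
    rw [eq_top_iff]
    intro g _
    apply mem_of_map le_sup_right
    obtain ⟨m, hm⟩ := hform g
    rw [hm]
    refine prod_mem fun i _ => zpow_mem ?_ _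
    exact ⟨x i, mem_sup_left (subset_closure ⟨i, rfl⟩), hx i⟩
  have hindep : ∀ i, closure (x '' {j | j ≠ i}) ≠ ⊤ := by
    intro i hi
    have h1 : (⊤ : Subgroup G) ≤ (π i).ker := by
      rw [← hi, closure_le]
      rintro _ ⟨j, hj, rfl⟩
      exact MonoidHom.mem_ker.2 (hπ2 i j (Ne.symm hj))
    have h2 : π i (x i) = 1 := MonoidHom.mem_ker.1 (h1 (mem_top _))
    rw [hπ1] at h2
    have h3 : (1 : ZMod (p ^ a i)) = 0 := Multiplicative.ofAdd.injective h2
    have : Fact (1 < p ^ a i) := ⟨hn1 i⟩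
    exact one_ne_zero h3
  have hout : ∀ (h : G) (m : ι → ℤ) (i : ι), Abelianization.of h = ∏ j, b j ^ m j →
      ¬ (p : ℤ) ∣ m i → h ∉ frattini G := by
    intro h m i hm hi hf
    apply hindep i
    apply frattini_nongenerating
    obtain ⟨K, hK⟩ : ∃ K, K = closure (x '' {j | j ≠ i}) ⊔ frattini G := ⟨_, rfl⟩
    rw [← hK]
    have hKc : commutator G ≤ K := by rw [hK]; exact comm_le_frattini.trans le_sup_right
    have hxK : ∀ j, j ≠ i → x j ∈ K := fun j hj => by
      rw [hK]; exact mem_sup_left (subset_closure ⟨j, hj, rfl⟩)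
    have h1 : x i ^ m i ∈ K := by
      apply mem_of_map hKc
      rw [← Finset.mul_prod_erase _ _ (Finset.mem_univ i)] at hm
      have h2 : Abelianization.of (x i ^ m i) = Abelianization.of h *
          (∏ j ∈ Finset.univ.erase i, b j ^ m j)⁻¹ := by
        rw [hm, mul_inv_cancel_right, map_zpow, hx]
      rw [h2]
      refine mul_mem ⟨h, by rw [hK]; exact mem_sup_right hf, rfl⟩
        (inv_mem (prod_mem fun j hj => zpow_mem ?_ _))
      exact ⟨x j, hxK j (Finset.ne_of_mem_erase hj), hx j⟩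
    have h2 : x i ∈ K := pow_coprime_mem hG hi h1
    rw [eq_top_iff, ← hgen, closure_le]
    rintro _ ⟨j, rfl⟩
    by_cases hj : j = i
    · rw [hj]; exact h2
    · exact hxK j hj
  have hord : ∀ i, x i ^ p ^ a i ∈ commutator G := by
    intro i
    rw [← of_eq_one, map_pow, hx]
    apply φ.injective
    rw [map_pow, hb, map_one]
    simp only [MulEquiv.apply_symm_apply]
    rw [← Pi.mulSingle_pow, ← ofAdd_nsmul, nsmul_one, ZMod.natCast_self, ofAdd_zero,
      Pi.mulSingle_one]
  refine ⟨⟨ι, hι, a, x, π, ?_, hπ1, hπ2, ?_, hgen, hord, ?_⟩⟩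
  · intro i h
    have h1 : 1 < p ^ a i := hn1 i
    rw [h, pow_zero] at h1
    exact lt_irrefl _ h1
  · intro g
    obtain ⟨m, hm⟩ := hform g
    exact ⟨m, by simp only [hx]; exact hm⟩
  · intro h m i hm
    simp only [hx] at hm
    exact hout h m i hm

theorem Basis.pi_form {G : Type*} [Group G] {p : ℕ} (B : Basis p G) {g : G} {m : B.ι → ℤ}
    (hm : letI := B.ft; (Abelianization.of g : Abelianization G) =
      ∏ i, (Abelianization.of (B.x i) : Abelianization G) ^ m i) (i : B.ι) :
    B.π i g = Multiplicative.ofAdd ((m i : ℤ) : ZMod (p ^ B.a i)) := by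
  classical
  letI : Fintype B.ι := B.ft
  have h1 : ∀ g : G, B.π i g = Abelianization.lift (B.π i) (Abelianization.of g) := fun g =>
    (Abelianization.lift_apply_of (B.π i) g).symm
  rw [h1 g]
  replace hm : (Abelianization.of g : Abelianization G) =
      ∏ i, (Abelianization.of (B.x i) : Abelianization G) ^ m i := hm
  rw [hm, map_prod, Finset.prod_eq_single i]
  · rw [map_zpow, ← h1, B.same, ← ofAdd_zsmul, zsmul_one]
  · intro j _ hj
    rw [map_zpow, ← h1, B.other i j (Ne.symm hj), one_zpow]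
  · intro h; exact absurd (Finset.mem_univ i) h

/-- every element is a power of an element outside the Frattini subgroup, up to `γ₂` -/
theorem Basis.root {G : Type*} [Group G] {p : ℕ} [hp : Fact p.Prime] (B : Basis p G)
    (hne : commutator G ≠ ⊤) (g : G) :
    ∃ h, h ∉ frattini G ∧ ∃ (N : ℤ) (c : G), c ∈ commutator G ∧ g = h ^ N * c := by
  classical
  letI : Fintype B.ι := B.ft
  have hn : Nonempty B.ι := by
    by_contra hcon
    apply hne
    rw [eq_top_iff]
    intro g _
    rw [← of_eq_one]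
    obtain ⟨m, hm⟩ := B.form g
    rw [hm]
    have : (Finset.univ : Finset B.ι) = ∅ := by
      rw [Finset.univ_eq_empty_iff]
      exact not_nonempty_iff.1 hcon
    rw [this, Finset.prod_empty]
  obtain ⟨m, hm⟩ := B.form g
  obtain ⟨m', hm', hgcd⟩ := Finset.extract_gcd m (Finset.univ_nonempty (α := B.ι))
  have hex : ∃ i, ¬ (p : ℤ) ∣ m' i := by
    by_contra hcon
    push Not at hcon
    have h1 : (p : ℤ) ∣ Finset.univ.gcd m' := Finset.dvd_gcd fun i _ => hcon i
    rw [hgcd] at h1
    have := Int.isUnit_iff.1 (isUnit_of_dvd_one h1)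
    have hp1 := hp.out.one_lt
    omega
  obtain ⟨i, hi⟩ := hex
  obtain ⟨h, hh⟩ : ∃ h : G, (Abelianization.of h : Abelianization G) =
      ∏ j, (Abelianization.of (B.x j) : Abelianization G) ^ m' j :=
    QuotientGroup.mk'_surjective (commutator G) _
  obtain ⟨N, hN⟩ : ∃ N : ℤ, N = Finset.univ.gcd m := ⟨_, rfl⟩
  refine ⟨h, B.out h m' i hh hi, N, (h ^ N)⁻¹ * g, ?_, by rw [mul_inv_cancel_left]⟩
  rw [← of_eq_one, map_mul, map_inv, map_zpow, hh, hm, ← Finset.prod_zpow,
    inv_mul_eq_one]
  refine Finset.prod_congr rfl fun j hj => ?_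
  rw [hm' j hj, ← hN, ← zpow_mul, mul_comm]

end Pool.Agent.Run7.h179.CP
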