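import Pool.Agent.Run7.h179.CP.A

set_option autoImplicit false

/-! If every central automorphism is class-preserving then `Z(G) = γ₂(G)`. -/

namespace Pool.Agent.Run7.h179.CP

open Subgroup Pool.Agent.Run7.h179.AC
open scoped commutatorElement IsMulCommutative

/-- a homomorphism from a cyclic group, with all its values -/
theorem cyc_val {A : Type*} [CommGroup A] (n : ℕ) {z : A} (hz : z ^ n = 1) :
    ∃ L : Multiplicative (ZMod n) →* A, ∀ m : ℤ, L (Multiplicative.ofAdd ((m : ℤ) : ZMod n)) = z ^ m := by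
  obtain ⟨L, hL⟩ := exists_cyc n hz
  refine ⟨L, fun m => ?_⟩
  rw [← hL, ← map_zpow, ← ofAdd_zsmul, zsmul_one]

section
variable {G : Type*} [Group G]

/-- every central automorphism is class-preserving -/
def CC (G : Type*) [Group G] : Prop :=
  ∀ α : MulAut G, (∀ g : G, g⁻¹ * α g ∈ center G) → ∀ g : G, IsConj g (α g)

theorem CC.hom [Finite G] (H : CC G) (θ : G →* center G)
    (hinj : ∀ g ∈ center G, ((θ g : center G) : G) * g = 1 → g = 1) (g : G) :
    ∃ k : G, ⁅k, g⁆ = ((θ g : center G) : G) := by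
  let F : G →* G :=
    { toFun := fun g => ((θ g : center G) : G) * g
      map_one' := by rw [map_one]; simp
      map_mul' := by
        intro a b
        rw [map_mul]
        show ((θ a : center G) : G) * ((θ b : center G) : G) * (a * b) =
          ((θ a : center G) : G) * a * (((θ b : center G) : G) * b)
        rw [mul_assoc, mul_assoc, ← mul_assoc a, mem_center_iff.1 (θ b).2 a, mul_assoc] }
  have hF : Function.Injective F := by
    rw [injective_iff_map_eq_one]
    intro g hg
    refine hinj g ?_ hg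
    have h1 : ((θ g : center G) : G) * g = 1 := hg
    rw [mul_eq_one_iff_inv_eq] at h1
    rw [← h1]
    exact inv_mem (θ g).2
  have hb : Function.Bijective F := Finite.injective_iff_bijective.1 hF
  have h1 := H (MulEquiv.ofBijective F hb) (fun g => by
    show g⁻¹ * (((θ g : center G) : G) * g) ∈ center G
    rw [← mul_assoc, mem_center_iff.1 (θ g).2 g⁻¹, mul_assoc, inv_mul_cancel, mul_one]
    exact (θ g).2) g
  exact conj_iff.1 h1

theorem card_index [Finite G] {p : ℕ} [hp : Fact p.Prime] (hG : IsPGroup p G)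
    (B : Basis p G) (hne : commutator G ≠ ⊥) : ∃ i j : B.ι, i ≠ j := by
  by_contra hcon
  push Not at hcon
  apply hne
  by_cases hn : Nonempty B.ι
  · obtain ⟨i⟩ := hn
    refine comm_bot_of_cyclic (a := B.x i) ?_
    rw [← B.gen, zpowers_eq_closure]
    congr 1
    ext g
    constructor
    · rintro rfl; exact ⟨i, rfl⟩
    · rintro ⟨j, rfl⟩; rw [hcon j i]; rfl
  · refine comm_bot_of_cyclic (a := 1) ?_
    have := not_nonempty_iff.1 hn
    rw [← B.gen, zpowers_one_eq_bot, Set.range_eq_empty, Subgroup.closure_empty]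

theorem exists_order {p : ℕ} [hp : Fact p.Prime] (hG : IsPGroup p G) {g : G} (hg : g ≠ 1) :
    ∃ n : ℕ, g ^ n ≠ 1 ∧ (g ^ n) ^ p = 1 := by
  classical
  have hex := hG g
  obtain ⟨k, hk⟩ : ∃ k, k = Nat.find hex := ⟨_, rfl⟩
  have h1 : g ^ p ^ k = 1 := by rw [hk]; exact Nat.find_spec hex
  have h2 : ∀ j < k, g ^ p ^ j ≠ 1 := fun j hj => Nat.find_min hex (hk ▸ hj)
  cases k with
  | zero => rw [pow_zero, pow_one] at h1; exact absurd h1 hg
  | succ k => exact ⟨p ^ k, h2 k (Nat.lt_succ_self k), by rw [← pow_mul, ← pow_succ, h1]⟩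

theorem center_le [Finite G] {p : ℕ} [hp : Fact p.Prime] (hG : IsPGroup p G)
    (hne : commutator G ≠ ⊥) (H : CC G) : center G ≤ commutator G := by
  obtain ⟨B⟩ := exists_basis hG
  letI : Fintype B.ι := B.ft
  have hker : ∀ (θ : G →* center G) (c : G), c ∈ commutator G → θ c = 1 := by
    intro θ c hc
    exact MonoidHom.mem_ker.1 (Abelianization.commutator_subset_ker θ hc)
  have hout : ∀ (k g c : G), ⁅k, g⁆ = c → c ∈ commutator G := by
    rintro k g c rfl
    exact comm_mem k g
  -- case A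
  have hA : ∀ e ∈ center G, e ^ p = 1 → e ∈ commutator G := by
    intro e he hep
    by_contra heC
    have hne1 : ∀ r : ℤ, ¬ (p : ℤ) ∣ r → e ^ r ∉ commutator G := fun r hr h =>
      heC (pow_coprime_mem hG hr h)
    -- the basic homomorphisms
    have hL : ∀ i : B.ι, ∃ L : Multiplicative (ZMod (p ^ B.a i)) →* center G,
        ∀ m : ℤ, L (Multiplicative.ofAdd ((m : ℤ) : ZMod (p ^ B.a i))) = (⟨e, he⟩ : center G) ^ m := by
      intro i
      apply cyc_val
      apply Subtype.ext
      show e ^ p ^ B.a i = 1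
      obtain ⟨k, hk⟩ := Nat.exists_eq_succ_of_ne_zero (B.pos i)
      rw [hk, pow_succ', pow_mul, hep, one_pow]
    choose L hL using hL
    have hval : ∀ (i : B.ι) (g : G), ∃ m : ℤ, L i (B.π i g) = (⟨e, he⟩ : center G) ^ m := by
      intro i g
      obtain ⟨m, hm⟩ := B.form g
      exact ⟨m i, by rw [B.pi_form hm, hL]⟩
    have hsame : ∀ i, L i (B.π i (B.x i)) = ⟨e, he⟩ := by
      intro i
      rw [B.same]
      have := hL i 1
      rwa [Int.cast_one, zpow_one] at this
    have hother : ∀ i j, i ≠ j → L i (B.π i (B.x j)) = 1 := by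
      intro i j hij
      rw [B.other i j hij, map_one]
    -- it suffices to find a homomorphism killing `e`
    have key : ∀ (θ : G →* center G) (g : G) (r : ℤ), (∀ g, ∃ m : ℤ, θ g = (⟨e, he⟩ : center G) ^ m) →
        θ e = 1 → θ g = (⟨e, he⟩ : center G) ^ r → ¬ (p : ℤ) ∣ r → False := by
      intro θ g r hθ h1 h2 h3
      obtain ⟨k, hk⟩ := H.hom θ (by
        intro g _ hg
        obtain ⟨m, hm⟩ := hθ g
        have h4 : g = e ^ (-m) := by
          rw [hm] at hg
          have h5 : e ^ m * g = 1 := hg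
          rw [mul_eq_one_iff_inv_eq] at h5
          rw [← h5, zpow_neg]
        have h5 : θ g = 1 := by rw [h4, map_zpow, h1, one_zpow]
        rw [h5] at hg
        simpa using hg) g
      rw [h2] at hk
      exact hne1 r h3 (hout _ _ _ hk)
    obtain ⟨i, j, hij⟩ := card_index hG B hne
    obtain ⟨s, hs⟩ := hval i e
    obtain ⟨t, ht⟩ := hval j e
    by_cases hps : (p : ℤ) ∣ s
    · refine key ((L i).comp (B.π i)) (B.x i) 1 (hval i) ?_ ?_ ?_
      · show L i (B.π i e) = 1
        rw [hs]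
        obtain ⟨s', rfl⟩ := hps
        apply Subtype.ext
        show e ^ ((p : ℤ) * s') = 1
        rw [zpow_mul, zpow_natCast, hep, one_zpow]
      · show L i (B.π i (B.x i)) = _
        rw [hsame, zpow_one]
      · intro h
        have := Int.isUnit_iff.1 (isUnit_of_dvd_one h)
        have hp1 := hp.out.one_lt
        omega
    · refine key (((L i).comp (B.π i)) ^ t * ((L j).comp (B.π j)) ^ (-s)) (B.x j) (-s) ?_ ?_ ?_ ?_
      · intro g
        obtain ⟨m, hm⟩ := hval i g
        obtain ⟨m', hm'⟩ := hval j g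
        refine ⟨m * t + m' * (-s), ?_⟩
        show (L i (B.π i g)) ^ t * (L j (B.π j g)) ^ (-s) = _
        rw [hm, hm', ← zpow_mul, ← zpow_mul, ← zpow_add]
      · show (L i (B.π i e)) ^ t * (L j (B.π j e)) ^ (-s) = 1
        rw [hs, ht, ← zpow_mul, ← zpow_mul, ← zpow_add]
        have : s * t + t * (-s) = 0 := by ring
        rw [this, zpow_zero]
      · show (L i (B.π i (B.x j))) ^ t * (L j (B.π j (B.x j))) ^ (-s) = _
        rw [hother i j hij, hsame, one_zpow, one_mul]
      · rwa [dvd_neg]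
  -- case B
  intro z hz
  by_contra hzC
  have hinj : ∀ (θ : G →* center G), ∀ g ∈ center G, ((θ g : center G) : G) * g = 1 → g = 1 := by
    intro θ g hg h1
    by_contra hg1
    obtain ⟨n, hn1, hn2⟩ := exists_order hG hg1
    have h2 : θ (g ^ n) = 1 := hker θ _ (hA _ (pow_mem hg n) hn2)
    have h3 : ((θ g : center G) : G) = g⁻¹ := eq_inv_of_mul_eq_one_left h1
    have h4 : ((θ (g ^ n) : center G) : G) = (g ^ n)⁻¹ := by
      rw [map_pow]
      show ((θ g : center G) : G) ^ n = _
      rw [h3, inv_pow]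
    rw [h2] at h4
    exact hn1 (inv_eq_one.1 h4.symm)
  obtain ⟨m, hm⟩ := B.form z
  obtain ⟨i, hi⟩ : ∃ i, ¬ ((p ^ B.a i : ℕ) : ℤ) ∣ m i := by
    by_contra hcon
    push Not at hcon
    apply hzC
    rw [← of_eq_one, hm]
    refine Finset.prod_eq_one fun i _ => ?_
    obtain ⟨k, hk⟩ := hcon i
    rw [hk, zpow_mul, zpow_natCast, ← map_pow, of_eq_one.2 (B.ord i), one_zpow]
  by_cases hzo : z ^ p ^ B.a i = 1
  · obtain ⟨L, hL⟩ := cyc_val (p ^ B.a i) (z := (⟨z, hz⟩ : center G)) (Subtype.ext hzo)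
    obtain ⟨k, hk⟩ := H.hom (L.comp (B.π i)) (hinj _) (B.x i)
    apply hzC
    apply hout k (B.x i)
    rw [hk]
    show ((L (B.π i (B.x i)) : center G) : G) = z
    rw [B.same]
    have := hL 1
    rw [Int.cast_one, zpow_one] at this
    rw [this]
  · obtain ⟨b, hb⟩ := (hG.exists_orderOf_eq_pow : ∀ g : G, ∃ b, orderOf g = p ^ b) z
    have hba : B.a i < b := by
      by_contra hcon
      apply hzo
      rw [← orderOf_dvd_iff_pow_eq_one, hb]
      exact pow_dvd_pow p (by omega)
    obtain ⟨L, hL⟩ := cyc_val (p ^ B.a i) (z := (⟨z, hz⟩ : center G) ^ p ^ (b - B.a i)) (by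
      apply Subtype.ext
      show (z ^ p ^ (b - B.a i)) ^ p ^ B.a i = 1
      rw [← pow_mul, ← pow_add, Nat.sub_add_cancel hba.le, ← hb, pow_orderOf_eq_one])
    obtain ⟨k, hk⟩ := H.hom (L.comp (B.π i)) (hinj _) z
    have h1 : ⁅k, z⁆ = 1 := commutatorElement_eq_one_iff_mul_comm.2 (mem_center_iff.1 hz k)
    rw [h1] at hk
    have h2 : ((L (B.π i z) : center G) : G) = 1 := hk.symm
    rw [B.pi_form hm, hL] at h2
    have h3 : (z ^ p ^ (b - B.a i)) ^ (m i) = 1 := h2
    rw [← zpow_natCast, ← zpow_mul, ← orderOf_dvd_iff_zpow_eq_one, hb] at h3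
    apply hi
    have h4 : ((p ^ b : ℕ) : ℤ) = ((p ^ (b - B.a i) : ℕ) : ℤ) * ((p ^ B.a i : ℕ) : ℤ) := by
      rw [← Nat.cast_mul, ← pow_add, Nat.sub_add_cancel hba.le]
    rw [h4] at h3
    have hpos : ((p ^ (b - B.a i) : ℕ) : ℤ) ≠ 0 := by
      exact_mod_cast (pow_pos hp.out.pos _).ne'
    exact (mul_dvd_mul_iff_left hpos).1 h3

end

end Pool.Agent.Run7.h179.CP
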