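import Pool.Agent.Run7.h179.CP.B
import Pool.Agent.Run7.h179.AC.N

set_option autoImplicit false

/-! Homomorphisms `G → Z(G)` with prescribed values, and the characterisation. -/

namespace Pool.Agent.Run7.h179.CP

open Subgroup Pool.Agent.Run7.h179.AC
open scoped commutatorElement IsMulCommutative

section
variable {G : Type*} [Group G]

/-- a hom into a cyclic subgroup of the centre with prescribed value -/
theorem hom_cyc [Finite G] {p : ℕ} [hp : Fact p.Prime] (B : Basis p G) {A : Type*} [CommGroup A]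
    {e : A} {β : ℕ} (he : e ^ p ^ β = 1) {x : G} {r : ℤ} (hr : ¬ (p : ℤ) ^ β ∣ r)
    (hx : ∀ j : ℕ, (∃ y : G, ∃ c ∈ commutator G, x ^ p ^ j = y ^ p ^ β * c) →
      (p : ℤ) ^ β ∣ r * p ^ j) :
    ∃ θ : G →* A, θ x = e ^ r := by
  classical
  letI : Fintype B.ι := B.ft
  have hpi : Prime (p : ℤ) := Nat.prime_iff_prime_int.1 hp.out
  have hr0 : r ≠ 0 := by rintro rfl; exact hr (dvd_zero _)
  -- the exact power of `p` in `r`
  obtain ⟨v, u, hu, hvu⟩ : ∃ (v : ℕ) (u : ℤ), ¬ (p : ℤ) ∣ u ∧ r = p ^ v * u := by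
    have hfin : FiniteMultiplicity (p : ℤ) r := by
      rw [Int.finiteMultiplicity_iff]
      refine ⟨?_, hr0⟩
      rw [Int.natAbs_natCast]
      exact hp.out.one_lt.ne'
    obtain ⟨u, h1, h2⟩ := hfin.exists_eq_pow_mul_and_not_dvd
    exact ⟨_, u, h2, h1⟩
  have hvβ : v < β := by
    by_contra hcon
    apply hr
    rw [hvu]
    exact Dvd.dvd.mul_right (pow_dvd_pow _ (by omega)) _
  obtain ⟨j, hj⟩ : ∃ j, β = v + j + 1 := ⟨β - v - 1, by omega⟩
  obtain ⟨m, hm⟩ := B.form x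
  -- some coordinate is large
  obtain ⟨i, hi⟩ : ∃ i, ¬ (p : ℤ) ^ (min β (B.a i)) ∣ p ^ j * m i := by
    by_contra hcon
    push Not at hcon
    have hq : ∀ i, ∃ q : Abelianization G,
        ((Abelianization.of (B.x i) : Abelianization G) ^ m i) ^ p ^ j = q ^ p ^ β := by
      intro i
      obtain ⟨s, hs⟩ := hcon i
      have h1 : ((Abelianization.of (B.x i) : Abelianization G) ^ m i) ^ p ^ j =
          (Abelianization.of (B.x i) : Abelianization G) ^ ((p : ℤ) ^ j * m i) := by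
        rw [← zpow_natCast, ← zpow_mul]
        congr 1
        push_cast
        ring
      rw [h1, hs]
      rcases le_total β (B.a i) with h | h
      · refine ⟨(Abelianization.of (B.x i) : Abelianization G) ^ s, ?_⟩
        rw [min_eq_left h, ← zpow_natCast, ← zpow_mul]
        congr 1
        push_cast
        ring
      · refine ⟨1, ?_⟩
        rw [min_eq_right h, one_pow, zpow_mul]
        have : (Abelianization.of (B.x i) : Abelianization G) ^ ((p : ℤ) ^ B.a i) = 1 := by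
          have h2 := of_eq_one.2 (B.ord i)
          rw [map_pow] at h2
          rw [← h2, ← zpow_natCast]
          push_cast
          rfl
        rw [this, one_zpow]
    choose q hq using hq
    obtain ⟨y, hy⟩ : ∃ y : G, (Abelianization.of y : Abelianization G) = ∏ i, q i :=
      QuotientGroup.mk'_surjective (commutator G) _
    have h1 := hx j ⟨y, (y ^ p ^ β)⁻¹ * x ^ p ^ j, by
      rw [← of_eq_one, map_mul, map_inv, map_pow, map_pow, hy, hm, ← Finset.prod_pow,
        ← Finset.prod_pow, inv_mul_eq_one]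
      exact Finset.prod_congr rfl fun i _ => (hq i).symm, by rw [mul_inv_cancel_left]⟩
    rw [hvu, hj] at h1
    have h2 : (p : ℤ) ^ (v + j) * p ∣ (p : ℤ) ^ (v + j) * u := by
      rw [← pow_succ]
      have : (p : ℤ) ^ (v + j) * u = p ^ v * u * p ^ j := by rw [pow_add]; ring
      rw [this]
      exact h1
    exact hu ((mul_dvd_mul_iff_left (pow_ne_zero _ hpi.ne_zero)).1 h2)
  obtain ⟨μ, hμ⟩ : ∃ μ, μ = min β (B.a i) := ⟨_, rfl⟩
  rw [← hμ] at hi
  have hμβ : μ ≤ β := hμ ▸ min_le_left _ _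
  have hμa : μ ≤ B.a i := hμ ▸ min_le_right _ _
  obtain ⟨L, hL⟩ := cyc_val (p ^ B.a i) (z := e ^ p ^ (β - μ)) (by
    rw [← pow_mul, ← pow_add]
    have : β - μ + B.a i = β + (B.a i - μ) := by omega
    rw [this, pow_add, pow_mul, he, one_pow])
  -- the exponent of the value
  obtain ⟨t, ht⟩ : ∃ t : ℤ, t = p ^ (β - μ) * m i := ⟨_, rfl⟩
  have hval : L (B.π i x) = e ^ t := by
    rw [B.pi_form hm, hL, ht, ← zpow_natCast, ← zpow_mul]
    congr 1
  have htn : ¬ (p : ℤ) ^ (v + 1) ∣ t := by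
    intro h
    apply hi
    have h1 : (p : ℤ) ^ (v + 1) * p ^ j ∣ p ^ (β - μ) * m i * p ^ j := mul_dvd_mul_right (ht ▸ h) _
    rw [← pow_add] at h1
    have h2 : (p : ℤ) ^ (v + 1 + j) = p ^ (β - μ) * p ^ μ := by
      rw [← pow_add]
      congr 1
      omega
    have h3 : (p : ℤ) ^ (β - μ) * m i * p ^ j = p ^ (β - μ) * (p ^ j * m i) := by ring
    rw [h2, h3] at h1
    exact (mul_dvd_mul_iff_left (pow_ne_zero _ hpi.ne_zero)).1 h1
  -- a multiple of `t` is congruent to `r`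
  obtain ⟨s, hs⟩ : ∃ s : ℤ, (p : ℤ) ^ β ∣ r - t * s := by
    have h1 := Int.gcd_eq_gcd_ab t ((p : ℤ) ^ β)
    have h2 : Int.gcd t ((p : ℤ) ^ β) ∣ p ^ β := by
      have := Int.gcd_dvd_right t ((p : ℤ) ^ β)
      exact_mod_cast this
    obtain ⟨w, hw, h3⟩ := (Nat.dvd_prime_pow hp.out).1 h2
    have hwv : w ≤ v := by
      by_contra hcon
      apply htn
      have h4 : ((Int.gcd t ((p : ℤ) ^ β) : ℕ) : ℤ) ∣ t := Int.gcd_dvd_left _ _
      rw [h3] at h4
      push_cast at h4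
      exact (pow_dvd_pow _ (by omega)).trans h4
    have h4 : ((Int.gcd t ((p : ℤ) ^ β) : ℕ) : ℤ) ∣ r := by
      rw [h3, hvu]
      push_cast
      exact Dvd.dvd.mul_right (pow_dvd_pow _ hwv) _
    obtain ⟨k, hk⟩ := h4
    refine ⟨Int.gcdA t ((p : ℤ) ^ β) * k, Int.gcdB t ((p : ℤ) ^ β) * k, ?_⟩
    rw [hk, h1]
    ring
  refine ⟨(L.comp (B.π i)) ^ s, ?_⟩
  show (L (B.π i x)) ^ s = e ^ r
  rw [hval, ← zpow_mul]
  exact (zpow_congr he hs).symm

/-- the height condition -/
def Hts (p : ℕ) (G : Type*) [Group G] (x z : G) : Prop :=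
  ∀ i h : ℕ, (∃ y : G, ∃ c ∈ center G, x ^ p ^ i = y ^ p ^ h * c) →
    ∃ w ∈ center G, z ^ p ^ i = w ^ p ^ h

theorem exists_hom_val [Finite G] {p : ℕ} [hp : Fact p.Prime] (hG : IsPGroup p G) (B : Basis p G)
    (hcl : commutator G ≤ center G) {x z : G} (hz : z ∈ center G) (h : Hts p G x z) :
    ∃ θ : G →* center G, ((θ x : center G) : G) = z := by
  classical
  obtain ⟨κ, hκ, n, hn1, ⟨ψ⟩⟩ := CommGroup.equiv_prod_multiplicative_zmod_of_finite (center G)
  have hpw : ∀ k, ∃ b, n k = p ^ b := by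
    intro k
    let ρ : center G →* Multiplicative (ZMod (n k)) :=
      (Pi.evalMonoidHom (fun i => Multiplicative (ZMod (n i))) k).comp ψ.toMonoidHom
    have hρ : Function.Surjective ρ := by
      intro q
      refine ⟨ψ.symm (Pi.mulSingle k q), ?_⟩
      show ψ (ψ.symm (Pi.mulSingle k q)) k = q
      rw [MulEquiv.apply_symm_apply, Pi.mulSingle_eq_same]
    have h1 := (hG.to_subgroup (center G)).of_surjective ρ hρ
    have hne : NeZero (n k) := ⟨by have := hn1 k; omega⟩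
    obtain ⟨b, hb⟩ := (IsPGroup.iff_card).1 h1
    refine ⟨b, ?_⟩
    rw [← hb, Nat.card_eq_of_bijective _ Multiplicative.toAdd.bijective, Nat.card_zmod]
  choose β hβ using hpw
  have key : ∀ k, ∃ θ : G →* center G, θ x = ψ.symm (Pi.mulSingle k (ψ ⟨z, hz⟩ k)) := by
    intro k
    obtain ⟨e, he⟩ : ∃ e : center G, e = ψ.symm (Pi.mulSingle k (Multiplicative.ofAdd 1)) := ⟨_, rfl⟩
    obtain ⟨r, hr⟩ : ∃ r : ℤ, r = ((Multiplicative.toAdd (ψ ⟨z, hz⟩ k)).cast : ℤ) := ⟨_, rfl⟩
    have hr' : Multiplicative.ofAdd ((r : ℤ) : ZMod (n k)) = ψ ⟨z, hz⟩ k := by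
      rw [hr, ZMod.intCast_zmod_cast, ofAdd_toAdd]
    have her : e ^ r = ψ.symm (Pi.mulSingle k (ψ ⟨z, hz⟩ k)) := by
      rw [he, ← map_zpow, ← Pi.mulSingle_zpow, ← ofAdd_zsmul, zsmul_one, hr']
    have hep : e ^ p ^ β k = 1 := by
      rw [he, ← map_pow, ← Pi.mulSingle_pow, ← ofAdd_nsmul, nsmul_one, ← hβ k, ZMod.natCast_self,
        ofAdd_zero, Pi.mulSingle_one, map_one]
    rw [← her]
    by_cases hrd : (p : ℤ) ^ β k ∣ r
    · refine ⟨1, ?_⟩
      have h1 : e ^ r = e ^ (0 : ℤ) := zpow_congr hep (by rw [sub_zero]; exact hrd)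
      rw [h1, zpow_zero, MonoidHom.one_apply]
    · refine hom_cyc B hep hrd ?_
      rintro j ⟨y, c, hc, hy⟩
      obtain ⟨w, hw, h2⟩ := h j (β k) ⟨y, c, hcl hc, hy⟩
      have h3 : (⟨z, hz⟩ : center G) ^ p ^ j = (⟨w, hw⟩ : center G) ^ p ^ β k := Subtype.ext h2
      have h4 := congrFun (congrArg ψ h3) k
      rw [map_pow, map_pow, Pi.pow_apply, Pi.pow_apply, ← hr'] at h4
      have h5 : (ψ ⟨w, hw⟩ k) ^ p ^ β k = 1 := by
        rw [← hβ k]
        apply Multiplicative.toAdd.injective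
        rw [toAdd_pow, toAdd_one, nsmul_eq_mul, ZMod.natCast_self, zero_mul]
      rw [h5, ← ofAdd_nsmul] at h4
      have h6 : (p ^ j) • ((r : ℤ) : ZMod (n k)) = 0 := Multiplicative.ofAdd.injective h4
      rw [nsmul_eq_mul] at h6
      have h7 : (((p ^ j : ℕ) : ℤ) * r : ℤ) = ((p ^ j : ℕ) : ℤ) * r := rfl
      have h8 : ((((p ^ j : ℕ) : ℤ) * r : ℤ) : ZMod (n k)) = 0 := by
        push_cast
        push_cast at h6
        exact h6
      rw [ZMod.intCast_zmod_eq_zero_iff_dvd, hβ k] at h8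
      push_cast at h8
      rw [mul_comm]
      exact h8
  choose θ hθ using key
  refine ⟨∏ k, θ k, ?_⟩
  rw [MonoidHom.finset_prod_apply]
  simp only [hθ]
  rw [← map_prod, Finset.univ_prod_mulSingle, MulEquiv.symm_apply_apply]

theorem main [Finite G] {p : ℕ} [hp : Fact p.Prime] (hG : IsPGroup p G)
    (hne : commutator G ≠ ⊥) (hcl : commutator G ≤ center G) :
    CC G ↔ (center G = commutator G ∧ ∀ x ∉ frattini G, ∀ z ∈ center G, Hts p G x z →
      ∃ k : G, ⁅k, x⁆ = z) := by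
  obtain ⟨B⟩ := exists_basis hG
  have hnil : Group.IsNilpotent G := hG.isNilpotent
  have hnt : commutator G ≠ ⊤ := by
    intro h
    have h1 : (⊥ : Subgroup G) = ⊤ := sup_comm_top (by rw [h, sup_top_eq])
    apply hne
    rw [eq_bot_iff, h1]
    exact le_top
  have hcc : ∀ k g : G, ⁅k, g⁆ ∈ center G := fun k g => hcl (comm_mem k g)
  have hzp : ∀ (k g : G) (m : ℤ), ⁅k, g ^ m⁆ = ⁅k, g⁆ ^ m := by
    intro k g m
    exact congrArg Subtype.val (map_zpow (chi k (hcc k)) g m)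
  have hmc : ∀ (k g c : G), c ∈ center G → ⁅k, g * c⁆ = ⁅k, g⁆ := by
    intro k g c hc
    rw [comm_mul_right, commutatorElement_eq_one_iff_mul_comm.2 (mem_center_iff.1 hc k), mul_one,
      mul_inv_cancel, mul_one]
  constructor
  · intro H
    have hZ : center G = commutator G := le_antisymm (center_le hG hne H) hcl
    refine ⟨hZ, fun x _ z hz h => ?_⟩
    obtain ⟨θ, hθ⟩ := exists_hom_val hG B hcl hz h
    obtain ⟨k, hk⟩ := H.hom θ (by
      intro g hg h1
      have h2 : θ g = 1 := by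
        rw [hZ] at hg
        exact MonoidHom.mem_ker.1 (Abelianization.commutator_subset_ker θ hg)
      rw [h2] at h1
      simpa using h1) x
    exact ⟨k, by rw [hk, hθ]⟩
  · rintro ⟨hZ, hH⟩ α hα g
    -- the homomorphism of `α`
    have hf : ∀ g, α g = g * (g⁻¹ * α g) := fun g => by group
    let θ : G →* center G :=
      { toFun := fun g => ⟨g⁻¹ * α g, hα g⟩
        map_one' := by apply Subtype.ext; show (1 : G)⁻¹ * α 1 = 1; simp
        map_mul' := by
          intro a b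
          apply Subtype.ext
          show (a * b)⁻¹ * α (a * b) = a⁻¹ * α a * (b⁻¹ * α b)
          have h1 := mem_center_iff.1 (hα a) b⁻¹
          rw [map_mul, mul_inv_rev]
          calc b⁻¹ * a⁻¹ * (α a * α b) = (b⁻¹ * (a⁻¹ * α a)) * α b := by group
            _ = (a⁻¹ * α a * b⁻¹) * α b := by rw [h1]
            _ = a⁻¹ * α a * (b⁻¹ * α b) := by group }
    have hker : ∀ c : G, c ∈ center G → θ c = 1 := by
      intro c hc
      rw [hZ] at hc
      exact MonoidHom.mem_ker.1 (Abelianization.commutator_subset_ker θ hc)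
    have hout : ∀ h, h ∉ frattini G → ∃ k : G, ⁅k, h⁆ = ((θ h : center G) : G) := by
      intro h hh
      refine hH h hh _ (θ h).2 ?_
      rintro i l ⟨y, c, hc, hy⟩
      refine ⟨((θ y : center G) : G), (θ y).2, ?_⟩
      have h1 : θ (h ^ p ^ i) = θ (y ^ p ^ l) := by rw [hy, map_mul, hker c hc, mul_one]
      rw [map_pow, map_pow] at h1
      exact congrArg Subtype.val h1
    have hall : ∃ k : G, ⁅k, g⁆ = ((θ g : center G) : G) := by
      obtain ⟨h, hh, N, c, hc, rfl⟩ := B.root hnt g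
      obtain ⟨k, hk⟩ := hout h hh
      refine ⟨k, ?_⟩
      rw [hmc _ _ _ (hcl hc), hzp, hk, map_mul, hker c (hcl hc), mul_one, map_zpow]
      rfl
    obtain ⟨k, hk⟩ := hall
    have h1 : α g = ((θ g : center G) : G) * g := by
      rw [← mem_center_iff.1 (θ g).2 g]
      exact hf g
    rw [h1]
    exact conj_iff.2 ⟨k, hk⟩

end

end Pool.Agent.Run7.h179.CP
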